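import Mathlib

namespace Pool.Agent.Results.MP_4d240a_al.McCoyNotDischinger

/-- The product of the polynomials with coefficient sequences `f` and `g` is zero. -/
def PolyMulZero {S : Type} [NonUnitalRing S] (f g : ℕ →₀ S) : Prop :=
  ∀ n : ℕ, ∑ i ∈ Finset.range (n + 1), f i * g (n - i) = 0

/-- Right McCoy rings (not necessarily unital). -/
def RightMcCoy (S : Type) [NonUnitalRing S] : Prop :=
  ∀ f g : ℕ →₀ S, f ≠ 0 → g ≠ 0 → PolyMulZero f g → ∃ s : S, s ≠ 0 ∧ ∀ i, f i * s = 0

/-- Left McCoy rings (not necessarily unital). -/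
def LeftMcCoy (S : Type) [NonUnitalRing S] : Prop :=
  ∀ f g : ℕ →₀ S, f ≠ 0 → g ≠ 0 → PolyMulZero f g → ∃ s : S, s ≠ 0 ∧ ∀ i, s * g i = 0

/-- Every right strongly regular element is strongly regular. -/
def RightDischinger (S : Type) [NonUnitalRing S] : Prop :=
  ∀ a : S, (∃ y : S, a = a * a * y) → ∃ z : S, a = z * (a * a)

/-- The integers with zero multiplication. -/
def Null : Type := ℤ

instance : NonUnitalRing Null :=
  { (inferInstanceAs (AddCommGroup ℤ) : AddCommGroup Null) with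
    mul := fun _ _ => (0 : ℤ)
    left_distrib := fun _ _ _ => (add_zero (0 : ℤ)).symm
    right_distrib := fun _ _ _ => (add_zero (0 : ℤ)).symm
    zero_mul := fun _ => rfl
    mul_zero := fun _ => rfl
    mul_assoc := fun _ _ _ => rfl }

theorem result : ∃ (S : Type) (_ : NonUnitalRing S),
    RightMcCoy S ∧ LeftMcCoy S ∧ ¬ RightDischinger S := by
  have hs : ((0, (1 : ℤ)) : Module.End ℚ (ℕ → ℚ) × Null) ≠ 0 := fun h =>
    one_ne_zero (α := ℤ) (congrArg Prod.snd h)
  refine ⟨Module.End ℚ (ℕ → ℚ) × Null, inferInstance, fun f g _ _ _ => ⟨_, hs, fun i => ?_⟩,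
    fun f g _ _ _ => ⟨_, hs, fun i => ?_⟩, fun h => ?_⟩
  · exact Prod.ext (mul_zero _) rfl
  · exact Prod.ext (zero_mul _) rfl
  · let a : Module.End ℚ (ℕ → ℚ) := LinearMap.funLeft ℚ ℚ Nat.succ
    let y : Module.End ℚ (ℕ → ℚ) :=
      { toFun := fun v n => Nat.casesOn n 0 v
        map_add' := fun v w => by ext n; cases n <;> simp
        map_smul' := fun c v => by ext n; cases n <;> simp }
    obtain ⟨z, hz⟩ := h (a, 0) ⟨(y, 0), Prod.ext (by ext v n; rfl) rfl⟩
    have h1 : a = z.1 * (a * a) := congrArg Prod.fst hz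
    have h2 := congrFun (LinearMap.congr_fun h1 (Pi.single 1 1)) 0
    have h3 : a (a (Pi.single 1 1)) = 0 := by ext n; simp [a, LinearMap.funLeft_apply]
    simp only [Module.End.mul_apply, h3, map_zero] at h2
    simp [a, LinearMap.funLeft_apply] at h2

end Pool.Agent.Results.MP_4d240a_al.McCoyNotDischinger
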